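import Mathlib

open Set Filter Function

namespace Pool.Agent.Results.MP_1a7a11_al.OnePoint

/-- the first product `u □ v` -/
def box {G : Type} [Group G] (u v : Ultrafilter G) : Ultrafilter G :=
  u.bind fun x => v.map (x * ·)

/-- the second product `u ◇ v` -/
def dia {G : Type} [Group G] (u v : Ultrafilter G) : Ultrafilter G :=
  v.bind fun y => u.map (· * y)

/-- the Heisenberg group over `ZMod (2 ^ (i + 1))`, written additively -/
@[ext] structure H (i : ℕ) where
  s : ZMod (2 ^ (i + 1))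
  t : ZMod (2 ^ (i + 1))
  e : ZMod (2 ^ (i + 1))

instance (i : ℕ) : Add (H i) := ⟨fun a b => ⟨a.s + b.s, a.t + b.t + a.e * b.s, a.e + b.e⟩⟩
instance (i : ℕ) : Zero (H i) := ⟨⟨0, 0, 0⟩⟩
instance (i : ℕ) : Neg (H i) := ⟨fun a => ⟨-a.s, -a.t + a.e * a.s, -a.e⟩⟩

@[simp] lemma add_s {i : ℕ} (a b : H i) : (a + b).s = a.s + b.s := rfl
@[simp] lemma add_t {i : ℕ} (a b : H i) : (a + b).t = a.t + b.t + a.e * b.s := rfl
@[simp] lemma add_e {i : ℕ} (a b : H i) : (a + b).e = a.e + b.e := rfl
@[simp] lemma zero_s {i : ℕ} : (0 : H i).s = 0 := rfl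
@[simp] lemma zero_t {i : ℕ} : (0 : H i).t = 0 := rfl
@[simp] lemma zero_e {i : ℕ} : (0 : H i).e = 0 := rfl

instance (i : ℕ) : AddGroup (H i) := AddGroup.ofLeftAxioms
  (fun a b c => by ext <;> simp <;> ring) (fun a => by ext <;> simp)
  fun a => by
    ext
    exacts [neg_add_cancel a.s, show -a.t + a.e * a.s + a.t + -a.e * a.s = 0 by ring,
      neg_add_cancel a.e]

instance (i : ℕ) : Finite (H i) := Finite.of_injective (fun a => (a.s, a.t, a.e))
  fun a b h => by simp only [Prod.mk.injEq] at h; exact H.ext h.1 h.2.1 h.2.2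

instance (i : ℕ) : Nontrivial (ZMod (2 ^ (i + 1))) :=
  ZMod.nontrivial_iff.2 (Nat.one_lt_two_pow i.succ_ne_zero).ne'

abbrev D : Type := Π₀ i, H i

open Classical in
noncomputable def y (m : ℕ) : D :=
  DFinsupp.mk (Finset.range (m + 1)) fun i => if i.1 = m then ⟨1, 0, 0⟩ else ⟨0, 0, 1⟩

lemma y_lt {m i : ℕ} (h : i < m) : y m i = ⟨0, 0, 1⟩ := by
  simp [y, DFinsupp.mk_apply, h.le, h.ne, Nat.lt_succ_iff]

lemma y_eq (m : ℕ) : y m m = ⟨1, 0, 0⟩ := by simp [y, DFinsupp.mk_apply]

lemma y_gt {m i : ℕ} (h : m < i) : y m i = 0 := by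
  simp [y, DFinsupp.mk_apply, Nat.lt_succ_iff, h]

open Classical in
noncomputable def B (z : D) : Finset ℕ := z.support.filter fun i => (z i).s ≠ 0

lemma mem_B {z : D} {i : ℕ} : i ∈ B z ↔ (z i).s ≠ 0 := by
  simp only [B, Finset.mem_filter, DFinsupp.mem_support_toFun, and_iff_right_iff_imp]
  exact fun h k => h (by rw [k]; rfl)

lemma B_ne (x : D) {m i : ℕ} (h : i ≠ m) : i ∈ B (x + y m) ↔ i ∈ B x := by
  rcases h.lt_or_gt with h | h <;> simp [mem_B, y_lt, y_gt, h]

lemma B_new {x : D} {m : ℕ} (h : m ∉ B x) : B (x + y m) = insert m (B x) := by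
  ext i
  rcases eq_or_ne i m with rfl | k
  · simpa [mem_B, y_eq] using fun z => by simp_all [mem_B]
  · simp [B_ne x k, k]

lemma fin_le (m : ℕ) : {x : D | ∀ i > m, x i = 0}.Finite := by
  refine Finite.of_finite_image (f := fun x (i : Fin (m + 1)) => x i) (toFinite _)
    fun a ha b hb h => DFinsupp.ext fun i => ?_
  rcases lt_or_ge m i with k | k
  exacts [(ha i k).trans (hb i k).symm, congrFun h ⟨i, Nat.lt_succ_of_le k⟩]

lemma top (x : D) : ∀ᶠ m in atTop, ∀ i ≥ m, x i = 0 := by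
  classical
  filter_upwards [eventually_gt_atTop (x.support.sup id)] with m hm i hi
  by_contra h
  exact absurd (Finset.le_sup (f := id) (DFinsupp.mem_support_iff.2 h)) (not_le.2 (hm.trans_le hi))

noncomputable def φ (L i : ℕ) (h : H i) : ZMod (2 ^ (L + 1)) :=
  if L ≤ i then (if h.s = 0 then 0 else h.e.cast) - h.t.cast else 0

open Classical in
noncomputable def Φ (L : ℕ) (z : D) : ZMod (2 ^ (L + 1)) := ∑ i ∈ z.support, φ L i (z i)

lemma Φ_add (L : ℕ) {x : D} {m : ℕ} (h : m ∉ B x) :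
    Φ L (x + y m) = Φ L x + ((B x).filter fun i => L ≤ i ∧ i < m).card := by
  classical
  have k : ∀ (z : D) (s : Finset ℕ), z.support ⊆ s → Φ L z = ∑ i ∈ s, φ L i (z i) :=
    fun z s hs => Finset.sum_subset hs fun i _ hi => by
      simp [DFinsupp.notMem_support_iff.1 hi, φ]
  rw [k _ _ DFinsupp.support_add, k x (x.support ∪ (y m).support) Finset.subset_union_left,
    show ((B x).filter fun i => L ≤ i ∧ i < m) = (x.support ∪ (y m).support).filter
      fun i => i ∈ B x ∧ L ≤ i ∧ i < m from by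
        ext i
        simp only [Finset.mem_filter, Finset.mem_union, iff_and_self]
        exact fun z => .inl (Finset.mem_filter.1 z.1).1,
    Finset.natCast_card_filter, ← Finset.sum_add_distrib]
  refine Finset.sum_congr rfl fun i _ => ?_
  by_cases l : L ≤ i
  swap
  · simp [φ, l]
  have d : 2 ^ (L + 1) ∣ 2 ^ (i + 1) := pow_dvd_pow _ (by omega)
  rcases lt_trichotomy i m with z | rfl | z
  · by_cases w : (x i).s = 0
    · simp [φ, l, z, y_lt, mem_B, w]
    · simp [φ, l, z, y_lt, mem_B, w, ZMod.cast_add d, ZMod.cast_one d]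
      ring
  · simp [φ, l, y_eq, show (x i).s = 0 by simpa [mem_B] using h, ZMod.cast_add d]
  · simp [y_gt z, z.not_gt]

lemma lim {α : Type} [Finite α] (u : Ultrafilter D) (f : D → α) : ∃ a, ∀ᶠ x in u, f x = a := by
  obtain ⟨a, ha⟩ := (u.map f).eq_pure_of_finite
  exact ⟨a, show {a} ∈ u.map f by simp [ha]⟩

lemma main (u : Ultrafilter D) (hu : ∀ x, u ≠ pure x) (h : ∀ P : D → Prop,
    (∀ᶠ x in u, ∀ᶠ m in atTop, P (x + y m)) → ∀ᶠ m in hyperfilter ℕ, ∀ᶠ x in u, P (x + y m)) :
    False := by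
  classical
  have t : ∀ x : D, ∀ᶠ m in atTop, m ∉ B x := fun x => (top x).mono fun m hm => by
    simp [mem_B, hm m le_rfl]
  have h1 : ∀ᶠ m in hyperfilter ℕ, ∀ᶠ x in u, m ∉ B x := by
    obtain ⟨a, ha⟩ := lim u fun x => ((B x).card : ZMod 3)
    filter_upwards [h (fun z => ((B z).card : ZMod 3) = a + 1) (ha.mono fun x hx =>
      (t x).mono fun m hm => by rw [B_new hm, Finset.card_insert_of_notMem hm]; simp [hx])]
      with m hm
    filter_upwards [ha, hm] with x x1 x2 z
    have e : (B (x + y m)).erase m = (B x).erase m := by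
      ext i
      simp only [Finset.mem_erase]
      exact and_congr_right (B_ne x)
    have e1 := Finset.card_erase_add_one z
    rw [← x1, ← e1, ← e] at x2
    by_cases w : m ∈ B (x + y m)
    · rw [Finset.card_erase_add_one w] at x2
      exact absurd (left_eq_add.1 x2) (by decide)
    · rw [Finset.erase_eq_of_notMem w, Nat.cast_succ, add_assoc] at x2
      exact absurd (left_eq_add.1 x2) (by decide)
  by_cases q : ∀ n, ∀ᶠ x in u, n ≤ (B x).card
  · obtain ⟨a, ha⟩ := lim u fun x => (((B x).filter (· < (B x).card + 1)).card : ZMod 2)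
    obtain ⟨m, m1, m2⟩ := (h1.and (h (fun z => (((B z).filter (· < (B z).card)).card : ZMod 2) = a)
      (ha.mono fun x hx => ((t x).and (eventually_ge_atTop ((B x).card + 1))).mono fun m hm => by
        rw [B_new hm.1, Finset.card_insert_of_notMem hm.1, Finset.filter_insert,
          if_neg hm.2.not_gt, hx]))).exists
    obtain ⟨x, ⟨x1, x2⟩, x3, x4⟩ := ((m1.and m2).and (ha.and (q m))).exists
    rw [B_new x1, Finset.card_insert_of_notMem x1, Finset.filter_insert,
      if_pos (Nat.lt_succ_of_le x4), Finset.card_insert_of_notMem (by simp [x1]), Nat.cast_succ,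
      x3] at x2
    exact absurd (add_eq_left.1 x2) (by decide)
  simp only [not_forall, ← Ultrafilter.eventually_not, not_le] at q
  obtain ⟨n, hn⟩ := q
  obtain ⟨L, l1, l2⟩ : ∃ L ≥ n, ∀ i ≥ L, ∀ᶠ x in u, i ∉ B x := by
    have : {i | ∀ᶠ x in u, i ∈ B x}.Finite := by
      by_contra z
      obtain ⟨s, s1, s2⟩ := Set.Infinite.exists_subset_card_eq z n
      obtain ⟨x, x1, x2⟩ := (hn.and ((eventually_all_finset s).2 fun i hi => s1 hi)).exists
      exact absurd (s2 ▸ Finset.card_le_card x2) x1.not_ge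
    obtain ⟨L, hL⟩ := this.bddAbove
    exact ⟨max n (L + 1), le_max_left _ _, fun i hi => Ultrafilter.eventually_not.2 fun z =>
      absurd (hL z) (by omega)⟩
  obtain ⟨⟨a, b⟩, ha⟩ := lim u fun x =>
    (Φ L x, (((B x).filter (L ≤ ·)).card : ZMod (2 ^ (L + 1))))
  simp only [Prod.mk.injEq] at ha
  have h2 : b = 0 := by
    obtain ⟨m, m1, m2⟩ := (h1.and (h (fun z => Φ L z = a + b) (ha.mono fun x hx =>
      (top x).mono fun m hm => by
        rw [Φ_add L (by simp [mem_B, hm m le_rfl]), hx.1, ← hx.2]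
        congr 3
        exact Finset.filter_congr fun i hi => and_iff_left
          (not_le.1 fun z => mem_B.1 hi (by simp [hm i z]))))).exists
    obtain ⟨x, ⟨x1, x2⟩, x3, x4⟩ := ((m1.and m2).and (ha.and ((eventually_all_finset
      (Finset.Ico L m)).2 fun i hi => l2 i (Finset.mem_Ico.1 hi).1))).exists
    rw [Φ_add L x1, x3.1, Finset.filter_eq_empty_iff.2 fun i hi z =>
      x4 i (Finset.mem_Ico.2 z) hi] at x2
    simpa using x2.symm
  have h3 : ∀ᶠ x in u, ∀ i ∈ B x, i < L := by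
    filter_upwards [ha, hn] with x x1 x2 i hi
    have := (ZMod.natCast_eq_zero_iff _ _).1 (x1.2.trans h2)
    have := Nat.eq_zero_of_dvd_of_lt this (((Finset.card_filter_le _ _).trans_lt x2).trans_le
      (l1.trans ((Nat.le_succ L).trans Nat.lt_two_pow_self.le)))
    exact not_le.1 (Finset.filter_eq_empty_iff.1 (Finset.card_eq_zero.1 this) hi)
  obtain ⟨m, m1, m2⟩ := (h1.and (h (fun z => ∃ j ≥ L, j ∈ B z ∧ ∀ i > j, z i = 0)
    (Eventually.of_forall fun x => ((top x).and (eventually_ge_atTop L)).mono fun m hm =>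
      ⟨m, hm.2, by simp [mem_B, hm.1 m le_rfl, y_eq],
        fun i hi => by simp [hm.1 i hi.le, y_gt hi]⟩))).exists
  obtain ⟨x, -, hx⟩ := Ultrafilter.eq_pure_of_finite_mem (fin_le m) (show _ ∈ u by
    filter_upwards [m1, m2, h3]
    rintro x x1 ⟨j, j1, j2, j3⟩ x3 i hi
    rw [B_new x1, Finset.mem_insert] at j2
    obtain rfl := j2.resolve_right fun z => (x3 j z).not_ge j1
    simpa [y_gt hi] using j3 i hi)
  exact hu x hx

theorem result : ∃ (G : Type) (_ : Group G), Countable G ∧ Infinite G ∧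
    (∀ g : G, {h | IsConj g h}.Finite) ∧
    ∃ v : Ultrafilter G, ∀ u : Ultrafilter G, (∀ x, u ≠ pure x) → box u v ≠ dia u v := by
  classical
  refine ⟨Multiplicative D, inferInstance, inferInstanceAs (Countable D),
    Infinite.of_injective (β := ℕ) y fun a b h => ?_, fun g => ?_, (hyperfilter ℕ).map y,
    fun u hu e => main u hu fun P hP => ?_⟩
  · by_contra k
    have := congrArg (fun z : D => (z a).s) h
    rcases Ne.lt_or_gt k with k | k <;> simp [y_eq, y_lt, y_gt, k] at this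
  · obtain ⟨m, hm⟩ := (top g).exists
    refine (fin_le m).subset fun z hz i hi => ?_
    obtain ⟨c, rfl⟩ := isConj_iff.1 hz
    exact (show c.toAdd i + g.toAdd i + -c.toAdd i = 0 by
      rw [show g.toAdd i = 0 from hm i hi.le]; simp)
  · have : {z | P z} ∈ box u ((hyperfilter ℕ).map y) :=
      hP.mono fun x hx => Nat.hyperfilter_le_atTop hx
    rwa [e] at this

end Pool.Agent.Results.MP_1a7a11_al.OnePoint
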